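import Pool.Agent.H90.SRC.Targets

/-!
# Row RW1: a piece with large rewards
-/

set_option autoImplicit false

open Finset
open Pool.Agent.H66.SLP Pool.Agent.H90.SRC

namespace Pool.Agent.H42.SPA

theorem wt_part (w : ℕ → ℝ) (c : ℕ → ℕ) (hc : Monotone c) (s e : ℕ) (h0 : c 0 ≤ s) (n : ℕ) :
    ∑ j ∈ range n, wt w (max s (c j)) (min e (c (j + 1))) = wt w s (min e (c n)) := by
  induction n with
  | zero =>
    rw [Finset.sum_range_zero]
    unfold wt
    rw [Ico_eq_empty (by omega), Finset.sum_empty]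
  | succ n ih =>
    rw [Finset.sum_range_succ, ih]
    have hm : c n ≤ c (n + 1) := hc (Nat.le_succ n)
    unfold wt
    rcases le_or_gt (c n) s with h | h
    · rw [Ico_eq_empty (a := s) (b := min e (c n)) (by omega), Finset.sum_empty, zero_add,
        max_eq_left h]
    · rw [max_eq_right h.le]
      rcases le_or_gt e (c n) with h1 | h1
      · rw [min_eq_left h1, min_eq_left (h1.trans hm), Ico_eq_empty (a := c n) (b := e) (by omega),
          Finset.sum_empty, add_zero]
      · rw [min_eq_right h1.le]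
        exact Finset.sum_Ico_consecutive w h.le (by omega)

theorem wt_cov {ι : Type} [Fintype ι] (w : ℕ → ℝ) (α β Q : ℕ) (s e : ι → ℕ)
    (hlo : ∀ i, α ≤ s i) (hhi : ∀ i, e i ≤ β)
    (hQ : ∀ x, α ≤ x → x < β → cov s e univ x = Q) :
    ∑ i, wt w (s i) (e i) = Q * wt w α β := by
  have h1 : ∀ i, wt w (s i) (e i) = ∑ x ∈ Ico α β, if s i ≤ x ∧ x < e i then w x else 0 := by
    intro i
    rw [← Finset.sum_filter]
    unfold wt
    refine Finset.sum_congr ?_ fun _ _ => rfl
    ext x
    have a1 := hlo i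
    have a2 := hhi i
    simp only [mem_Ico, mem_filter]
    omega
  rw [Finset.sum_congr rfl fun i _ => h1 i, Finset.sum_comm]
  unfold wt
  rw [Finset.mul_sum]
  refine Finset.sum_congr rfl fun x hx => ?_
  rw [mem_Ico] at hx
  rw [← Finset.sum_filter, Finset.sum_const, nsmul_eq_mul]
  have h2 := hQ x hx.1 hx.2
  unfold cov at h2
  rw [h2]

theorem pf_RW1 : T_RW1 := by
  intro Y u p α β Q T θ ι _ _ z s e w c hp hT hF hw hcov hpw hc hc0 hcT hW
  have hwi : ∀ i, 0 < wt w (s i) (e i) := fun i =>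
    lt_of_lt_of_le (lt_of_lt_of_le one_pos (hp (z i)).1) (hpw i)
  have hpart : ∀ i, ∑ j ∈ range T, wt w (max (s i) (c j)) (min (e i) (c (j + 1))) =
      wt w (s i) (e i) := by
    intro i
    rw [wt_part w c hc (s i) (e i) (by rw [hc0]; exact hF.lo i) T, hcT, min_eq_left (hF.hi i)]
  have hsum : ∑ j ∈ range T, ∑ i, (wt w (s i) (e i) - p (z i)) *
      (wt w (max (s i) (c j)) (min (e i) (c (j + 1))) / wt w (s i) (e i)) =
      Q * wt w α β - ∑ i, p (z i) := by
    rw [Finset.sum_comm, ← wt_cov w α β Q s e hF.lo hF.hi hcov, ← Finset.sum_sub_distrib]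
    refine Finset.sum_congr rfl fun i _ => ?_
    rw [← Finset.mul_sum, ← Finset.sum_div, hpart i, div_self (hwi i).ne', mul_one]
  by_contra hcon
  push Not at hcon
  have hlt : ∑ j ∈ range T, ∑ i, (wt w (s i) (e i) - p (z i)) *
      (wt w (max (s i) (c j)) (min (e i) (c (j + 1))) / wt w (s i) (e i)) <
      ∑ j ∈ range T, (Q : ℝ) * (wt w α β - θ) := by
    refine Finset.sum_lt_sum_of_nonempty ?_ fun j hj => hcon j (mem_range.1 hj)
    exact ⟨0, mem_range.2 hT⟩
  rw [hsum, Finset.sum_const, card_range, nsmul_eq_mul] at hlt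
  push_cast at hW
  nlinarith

end Pool.Agent.H42.SPA
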